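import Mathlib

/-!
# MP_3eafcc_gt: a `T₁` space `X` such that the ring `T''(X)` is not almost regular
-/

set_option autoImplicit false

open Set Topology Filter

universe u

namespace Pool.Agent.Results.MP_3eafcc_gt.NotAlmostRegular

/-- The ring `T''(X)` of all real functions which are continuous on some dense cozero set
`{x | g x ≠ 0}`, `g : X → ℝ` continuous, with the pointwise operations. -/
def Tpp (X : Type u) [TopologicalSpace X] : Subring (X → ℝ) where
  carrier := {f | ∃ g : X → ℝ, Continuous g ∧ Dense {x | g x ≠ 0} ∧ ContinuousOn f {x | g x ≠ 0}}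
  mul_mem' := by
    rintro a b ⟨g, hg, hgd, hga⟩ ⟨h, hh, hhd, hhb⟩
    have e : {x | (g * h) x ≠ 0} = {x | g x ≠ 0} ∩ {x | h x ≠ 0} := by
      ext x; simp
    refine ⟨g * h, hg.mul hh, ?_, ?_⟩
    · rw [e]; exact hgd.inter_of_isOpen_left hhd (isOpen_ne.preimage hg)
    · rw [e]; exact (hga.mono inter_subset_left).mul (hhb.mono inter_subset_right)
  one_mem' := ⟨1, continuous_const, by simp, continuousOn_const⟩
  add_mem' := by
    rintro a b ⟨g, hg, hgd, hga⟩ ⟨h, hh, hhd, hhb⟩
    have e : {x | (g * h) x ≠ 0} = {x | g x ≠ 0} ∩ {x | h x ≠ 0} := by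
      ext x; simp
    refine ⟨g * h, hg.mul hh, ?_, ?_⟩
    · rw [e]; exact hgd.inter_of_isOpen_left hhd (isOpen_ne.preimage hg)
    · rw [e]; exact (hga.mono inter_subset_left).add (hhb.mono inter_subset_right)
  zero_mem' := ⟨1, continuous_const, by simp, continuousOn_const⟩
  neg_mem' := by
    rintro a ⟨g, hg, hgd, hga⟩
    exact ⟨g, hg, hgd, hga.neg⟩

/-- almost regular (classical) rings: every element is a unit or a zero divisor -/
def AlmostRegular (R : Type u) [CommRing R] : Prop :=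
  ∀ a : R, IsUnit a ∨ ∃ b : R, b ≠ 0 ∧ a * b = 0

/-- the point set of the example: the positive reals and the natural numbers -/
def XX : Type := {x : ℝ // 0 < x} ⊕ ℕ

/-- the embedding of the positive reals -/
def re (x : {x : ℝ // 0 < x}) : XX := Sum.inl x

/-- the embedding of the natural numbers -/
def na (n : ℕ) : XX := Sum.inr n

/-- The topology: `W` is open iff its trace on the positive reals is open, its trace on `ℕ` is empty or
cofinite, and it contains an interval `(0, ε)` in case it contains the natural number `0`. -/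
instance : TopologicalSpace XX where
  IsOpen W := IsOpen (re ⁻¹' W) ∧ ((na ⁻¹' W) = ∅ ∨ (na ⁻¹' W)ᶜ.Finite) ∧
    (na 0 ∈ W → ∃ ε > 0, ∀ x : {x : ℝ // 0 < x}, x.1 < ε → re x ∈ W)
  isOpen_univ := ⟨isOpen_univ, Or.inr (by simp), fun _ => ⟨1, one_pos, fun _ _ => mem_univ _⟩⟩
  isOpen_inter := by
    rintro W V ⟨h1, h2, h3⟩ ⟨k1, k2, k3⟩
    refine ⟨h1.inter k1, ?_, ?_⟩
    · rw [preimage_inter]
      rcases h2 with h2 | h2
      · left; rw [h2, empty_inter]
      · rcases k2 with k2 | k2
        · left; rw [k2, inter_empty]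
        · right; rw [compl_inter]; exact h2.union k2
    · rintro ⟨hW, hV⟩
      obtain ⟨ε, hε, hh⟩ := h3 hW
      obtain ⟨δ, hδ, kk⟩ := k3 hV
      exact ⟨min ε δ, lt_min hε hδ, fun x hx => ⟨hh x (hx.trans_le (min_le_left _ _)), kk x (hx.trans_le (min_le_right _ _))⟩⟩
  isOpen_sUnion := by
    intro S hS
    refine ⟨?_, ?_, ?_⟩
    · rw [preimage_sUnion]
      exact isOpen_biUnion fun W hW => (hS W hW).1
    · by_cases h : ∃ W ∈ S, (na ⁻¹' W)ᶜ.Finite
      · obtain ⟨W, hW, hfin⟩ := h
        right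
        refine hfin.subset ?_
        rw [compl_subset_compl]
        exact preimage_mono (subset_sUnion_of_mem hW)
      · left
        push Not at h
        rw [preimage_sUnion, eq_empty_iff_forall_notMem]
        intro n hn
        obtain ⟨W, hW, hnW⟩ := mem_iUnion₂.mp hn
        rcases (hS W hW).2.1 with h2 | h2
        · rw [h2] at hnW; exact hnW
        · exact h W hW h2
    · rintro ⟨W, hW, h0⟩
      obtain ⟨ε, hε, hh⟩ := (hS W hW).2.2 h0
      exact ⟨ε, hε, fun x hx => ⟨W, hW, hh x hx⟩⟩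

theorem isOpen_XX {W : Set XX} : IsOpen W ↔ IsOpen (re ⁻¹' W) ∧ ((na ⁻¹' W) = ∅ ∨ (na ⁻¹' W)ᶜ.Finite) ∧
    (na 0 ∈ W → ∃ ε > 0, ∀ x : {x : ℝ // 0 < x}, x.1 < ε → re x ∈ W) := Iff.rfl

theorem cases_XX (y : XX) : (∃ x, y = re x) ∨ ∃ n, y = na n := by
  rcases y with x | n
  · exact Or.inl ⟨x, rfl⟩
  · exact Or.inr ⟨n, rfl⟩

theorem re_inj {x z} (h : re x = re z) : x = z := Sum.inl_injective h
theorem na_inj {x z} (h : na x = na z) : x = z := Sum.inr_injective h
theorem re_ne_na (x) (n) : re x ≠ na n := by rintro ⟨⟩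

instance : T1Space XX := by
  refine ⟨fun y => ?_⟩
  rw [← isOpen_compl_iff, isOpen_XX]
  rcases cases_XX y with ⟨x, rfl⟩ | ⟨n, rfl⟩
  · have e1 : re ⁻¹' ({re x}ᶜ) = {x}ᶜ := by
      ext z
      constructor
      · intro h hz
        exact h (by rw [mem_singleton_iff.mp hz]; rfl)
      · intro h hz
        exact h (re_inj hz)
    have e2 : na ⁻¹' ({re x}ᶜ) = univ := by
      ext z
      simp only [mem_preimage, mem_univ, iff_true]
      intro h
      exact re_ne_na _ _ (mem_singleton_iff.mp h).symm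
    refine ⟨by rw [e1]; exact isOpen_compl_singleton, Or.inr (by rw [e2]; simp), fun _ => ⟨x.1, x.2, fun z hz h => ?_⟩⟩
    have : z = x := re_inj h
    rw [this] at hz
    exact lt_irrefl _ hz
  · have e1 : re ⁻¹' ({na n}ᶜ) = univ := by
      ext z
      simp only [mem_preimage, mem_univ, iff_true]
      intro h
      exact re_ne_na _ _ h
    have e2 : (na ⁻¹' ({na n}ᶜ))ᶜ ⊆ {n} := by
      intro z hz
      by_contra hne
      exact hz (fun h => hne (na_inj h))
    refine ⟨by rw [e1]; exact isOpen_univ, Or.inr ((finite_singleton n).subset e2), fun _ => ⟨1, one_pos, fun z _ h => ?_⟩⟩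
    exact re_ne_na _ _ h

/-- neighbourhoods of the natural numbers contain all but finitely many natural numbers -/
theorem nhds_na {m : ℕ} {A : Set XX} (hA : A ∈ 𝓝 (na m)) : (na ⁻¹' A)ᶜ.Finite := by
  obtain ⟨W, hWA, hW, hm⟩ := mem_nhds_iff.mp hA
  rcases (isOpen_XX.mp hW).2.1 with h | h
  · exact absurd (show m ∈ na ⁻¹' W from hm) (by rw [h]; exact notMem_empty m)
  · exact h.subset (compl_subset_compl.mpr (preimage_mono hWA))

theorem eq_of_continuousAt {g : XX → ℝ} {m n : ℕ} (hm : ContinuousAt g (na m)) (hn : ContinuousAt g (na n)) :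
    g (na m) = g (na n) := by
  by_contra hne
  obtain ⟨A, B, hA, hB, hmA, hnB, hAB⟩ := t2_separation hne
  have h1 := nhds_na (hm (hA.mem_nhds hmA))
  have h2 := nhds_na (hn (hB.mem_nhds hnB))
  obtain ⟨k, hk⟩ := (h1.union h2).exists_notMem
  simp only [mem_union, mem_compl_iff, not_or, not_not] at hk
  exact Set.disjoint_left.mp hAB hk.1 hk.2

theorem eq_zero_of_continuousAt {g : XX → ℝ} (h0 : ContinuousAt g (na 0)) (hg : ∀ x, g (re x) = 0) :
    g (na 0) = 0 := by
  by_contra hne
  have h1 := h0 (isOpen_ne.mem_nhds hne)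
  obtain ⟨W, hWA, hW, hm⟩ := mem_nhds_iff.mp h1
  obtain ⟨ε, hε, hh⟩ := (isOpen_XX.mp hW).2.2 hm
  have h2 := hWA (hh ⟨ε / 2, by positivity⟩ (by change ε / 2 < ε; linarith))
  exact h2 (hg _)

/-- the element of `T''(X)` that is neither a unit nor a zero divisor -/
def f : XX → ℝ
  | Sum.inl x => x.1
  | Sum.inr _ => 0

theorem continuous_f : Continuous f := by
  rw [continuous_def]
  intro V hV
  rw [isOpen_XX]
  refine ⟨?_, ?_, ?_⟩
  · exact hV.preimage continuous_subtype_val
  · by_cases h : (0 : ℝ) ∈ V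
    · right
      have : na ⁻¹' (f ⁻¹' V) = univ := by
        ext n; simp only [mem_univ, iff_true]; exact h
      rw [this]; simp
    · left
      ext n; simp only [mem_empty_iff_false, iff_false]; exact h
  · intro h0
    have h0' : (0 : ℝ) ∈ V := h0
    obtain ⟨ε, hε, hball⟩ := Metric.isOpen_iff.mp hV 0 h0'
    refine ⟨ε, hε, fun x hx => hball ?_⟩
    change dist x.1 0 < ε
    rw [Real.dist_eq, sub_zero, abs_of_pos x.2]
    exact hx

/-- the open set of all nonzero natural numbers -/
theorem isOpen_N1 : IsOpen {y : XX | ∃ n : ℕ, n ≠ 0 ∧ y = na n} := by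
  rw [isOpen_XX]
  refine ⟨?_, Or.inr ?_, ?_⟩
  · convert isOpen_empty
    ext x
    simp only [mem_preimage, mem_ofPred_eq, mem_empty_iff_false, iff_false, not_exists, not_and]
    intro n _ h
    exact absurd h (by rintro ⟨⟩)
  · refine (finite_singleton 0).subset fun n hn => ?_
    by_contra hne
    exact hn ⟨n, hne, rfl⟩
  · rintro ⟨n, hn, h⟩
    exact absurd (Sum.inr_injective h).symm hn

/-- **There is a `T₁` space `X` such that the ring `T''(X)` is not almost regular.** -/
theorem result : ∃ (X : Type) (_ : TopologicalSpace X), T1Space X ∧ ¬ AlmostRegular (Tpp X) := by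
  refine ⟨XX, inferInstance, inferInstance, fun h => ?_⟩
  have hf : f ∈ Tpp XX := ⟨fun _ => 1, continuous_const, by simp, continuous_f.continuousOn⟩
  rcases h ⟨f, hf⟩ with h1 | ⟨⟨b, hb⟩, hb0, hfb⟩
  · obtain ⟨u, hu⟩ := h1
    have h2 : (u : Tpp XX) * (↑u⁻¹ : Tpp XX) = 1 := u.mul_inv
    rw [hu] at h2
    have h3 := congrFun (congrArg Subtype.val h2) (na 0)
    have h4 : f (na 0) * (↑u⁻¹ : Tpp XX).1 (na 0) = 1 := h3
    have h5 : f (na 0) = 0 := rfl
    rw [h5, zero_mul] at h4
    exact zero_ne_one h4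
  · have hre : ∀ x, b (re x) = 0 := by
      intro x
      have h3 : f (re x) * b (re x) = 0 := congrFun (congrArg Subtype.val hfb) (re x)
      have h4 : f (re x) = x.1 := rfl
      rw [h4] at h3
      rcases mul_eq_zero.mp h3 with h5 | h5
      · exact absurd h5 x.2.ne'
      · exact h5
    obtain ⟨g, hg, hgd, hgb⟩ := hb
    have hgo : IsOpen {x | g x ≠ 0} := isOpen_ne.preimage hg
    obtain ⟨_, ⟨m, _, rfl⟩, hm⟩ := hgd.inter_open_nonempty _ isOpen_N1 ⟨na 1, 1, one_ne_zero, rfl⟩
    have hgall : ∀ n, g (na n) ≠ 0 := fun n => by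
      rw [eq_of_continuousAt hg.continuousAt hg.continuousAt (n := m)]; exact hm
    have hbc : ∀ n, ContinuousAt b (na n) := fun n => hgb.continuousAt (hgo.mem_nhds (hgall n))
    refine hb0 (Subtype.ext (funext fun y => ?_))
    rcases y with x | n
    · exact hre x
    · exact (eq_of_continuousAt (hbc n) (hbc 0)).trans (eq_zero_of_continuousAt (hbc 0) hre)

end Pool.Agent.Results.MP_3eafcc_gt.NotAlmostRegular
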